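import Pool.Agent.W2helper9.OP.Stm

/-!
Project OP (helper9), piece FQ: a Frobenius automorphism has no fixed point in `W_n`.
-/

set_option autoImplicit false

open MvPolynomial IsDedekindDomain NumberField Filter

namespace Pool.Agent.W2helper49.OP

open Pool.Agent.Helper819.Dyn (Tuple IsEnd)
open Pool.Agent.W2helper9.OP

section basic

variable {k E : Type} [Field k] [Field E] [Algebra k E] {N : ℕ}

lemma aeval_hom {d : ℕ} {p : MvPolynomial (Fin (N + 1)) k} (hp : p.IsHomogeneous d) (c : E)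
    (x : Fin (N + 1) → E) : aeval (c • x) p = c ^ d * aeval x p := by
  rw [aeval_def, aeval_def, eval₂_eq', eval₂_eq', Finset.mul_sum]
  apply Finset.sum_congr rfl
  intro m hm
  have h1 : ∏ i, ((c • x) i) ^ m i = c ^ d * ∏ i, x i ^ m i := by
    simp_rw [Pi.smul_apply, smul_eq_mul, mul_pow]
    rw [Finset.prod_mul_distrib, Finset.prod_pow_eq_pow_sum]
    congr 2
    have h2 := hp (mem_support_iff.1 hm)
    rw [← h2]
    simp [Finsupp.weight_apply, Finsupp.sum_fintype]
  rw [h1]; ring

lemma mp_smul {d : ℕ} {F : Tuple k N} (hF : ∀ i, (F i).IsHomogeneous d) (c : E)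
    (x : Fin (N + 1) → E) : mp F (c • x) = c ^ d • mp F x := by
  funext i
  exact aeval_hom (hF i) c x

lemma peq_refl (x : Fin (N + 1) → E) : PEq x x := ⟨1, one_ne_zero, by simp⟩

lemma peq_symm {x y : Fin (N + 1) → E} (h : PEq x y) : PEq y x := by
  obtain ⟨c, hc, rfl⟩ := h
  exact ⟨c⁻¹, inv_ne_zero hc, by rw [smul_smul, inv_mul_cancel₀ hc, one_smul]⟩

lemma peq_trans {x y z : Fin (N + 1) → E} (h : PEq x y) (h' : PEq y z) : PEq x z := by
  obtain ⟨c, hc, rfl⟩ := h
  obtain ⟨e, he, rfl⟩ := h'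
  exact ⟨e * c, mul_ne_zero he hc, by rw [smul_smul]⟩

lemma peq_mp {d : ℕ} {F : Tuple k N} (hF : ∀ i, (F i).IsHomogeneous d)
    {x y : Fin (N + 1) → E} (h : PEq x y) : PEq (mp F x) (mp F y) := by
  obtain ⟨c, hc, rfl⟩ := h
  exact ⟨c ^ d, pow_ne_zero _ hc, mp_smul hF c x⟩

lemma peq_iter {d : ℕ} {F : Tuple k N} (hF : ∀ i, (F i).IsHomogeneous d)
    {x y : Fin (N + 1) → E} (h : PEq x y) (t : ℕ) : PEq ((mp F)^[t] x) ((mp F)^[t] y) := by
  induction t with
  | zero => exact h
  | succ t ih =>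
    rw [Function.iterate_succ_apply', Function.iterate_succ_apply']
    exact peq_mp hF ih

lemma cong_peq {Γ : Type} [LinearOrderedCommGroupWithZero Γ] {ν : Valuation E Γ}
    {x y x' y' : Fin (N + 1) → E} (hx : PEq x x') (hy : PEq y y') (h : Cong ν x y) :
    Cong ν x' y' := by
  obtain ⟨c, hc, rfl⟩ := hx
  obtain ⟨e, he, rfl⟩ := hy
  obtain ⟨a, b, h1, h2, h3⟩ := h
  have e1 : ∀ i, a * c⁻¹ * (c • x) i = a * x i := by
    intro i
    rw [Pi.smul_apply, smul_eq_mul]
    field_simp
  have e2 : ∀ i, b * e⁻¹ * (e • y) i = b * y i := by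
    intro i
    rw [Pi.smul_apply, smul_eq_mul]
    field_simp
  refine ⟨a * c⁻¹, b * e⁻¹, ?_, ?_, ?_⟩
  · intro i; rw [e1]; exact h1 i
  · obtain ⟨i, hi⟩ := h2; exact ⟨i, by rw [e1]; exact hi⟩
  · intro i; rw [e1, e2]; exact h3 i

lemma mp_zero {d : ℕ} {F : Tuple k N} (hd : 1 ≤ d) (hF : ∀ i, (F i).IsHomogeneous d) :
    mp F (0 : Fin (N + 1) → E) = 0 := by
  have h := mp_smul hF (0 : E) (0 : Fin (N + 1) → E)
  rw [zero_pow (by omega), zero_smul, zero_smul] at h
  exact h

lemma mp_iter_zero {d : ℕ} {F : Tuple k N} (hd : 1 ≤ d) (hF : ∀ i, (F i).IsHomogeneous d) (t : ℕ) :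
    (mp F)^[t] (0 : Fin (N + 1) → E) = 0 := by
  induction t with
  | zero => rfl
  | succ t ih => rw [Function.iterate_succ_apply', ih, mp_zero hd hF]

lemma mp_map {E' : Type} [Field E'] [Algebra k E'] (φ : E →ₐ[k] E') (F : Tuple k N)
    (x : Fin (N + 1) → E) (i : Fin (N + 1)) : φ (mp F x i) = mp F (fun j => φ (x j)) i :=
  comp_aeval_apply (f := x) φ (F i)

end basic

/-- the set of solutions of `ρ ^ q = ρ` -/
lemma card_sol {k : Type} [Field k] [DecidableEq k] {q : ℕ} (hq : 1 < q) :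
    (Polynomial.X ^ q - Polynomial.X : Polynomial k).roots.toFinset.card ≤ q := by
  refine (Multiset.toFinset_card_le _).trans ((Polynomial.card_roots' _).trans ?_)
  rw [FiniteField.X_pow_card_sub_X_natDegree_eq k hq]

lemma mem_sol {k : Type} [Field k] [DecidableEq k] {q : ℕ} (hq : 1 < q) {ρ : k} (h : ρ ^ q = ρ) :
    ρ ∈ (Polynomial.X ^ q - Polynomial.X : Polynomial k).roots.toFinset := by
  rw [Multiset.mem_toFinset, Polynomial.mem_roots (FiniteField.X_pow_card_sub_X_ne_zero k hq)]
  simp [Polynomial.IsRoot, h]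

/-- pigeonhole -/
lemma pigeon {k : Type} [Field k] {N q : ℕ} (hq : 1 < q) (r : ℕ → Fin (N + 1) → k)
    (hr : ∀ t i, r t i ^ q = r t i) : ∃ i j : ℕ, i < j ∧ j ≤ q ^ (N + 1) ∧ r i = r j := by
  classical
  set R := (Polynomial.X ^ q - Polynomial.X : Polynomial k).roots.toFinset with hR
  have h1 : (Fintype.piFinset fun _ : Fin (N + 1) => R).card < (Finset.range (q ^ (N + 1) + 1)).card := by
    rw [Fintype.card_piFinset, Finset.card_range]
    simp only [Finset.prod_const, Finset.card_univ, Fintype.card_fin]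
    exact Nat.lt_succ_of_le (Nat.pow_le_pow_left (card_sol hq) _)
  obtain ⟨i, hi, j, hj, hij, he⟩ := Finset.exists_ne_map_eq_of_card_lt_of_maps_to (f := r) h1 (by
    intro t _
    rw [Finset.mem_coe, Fintype.mem_piFinset]
    intro i
    exact mem_sol hq (hr t i))
  rw [Finset.mem_range] at hi hj
  rcases lt_or_gt_of_ne hij with h | h
  · exact ⟨i, j, h, by omega, he⟩
  · exact ⟨j, i, h, by omega, he.symm⟩

/-- FQ -/
theorem p_fq : P_FQ := by
  intro hFIB hFLOC hFROB _ hCMAP K _ _ N d F γ v A hd hF hγ hA hgood hstar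
  classical
  obtain ⟨hFh, -⟩ := id hF
  set q := Ideal.absNorm v.asIdeal with hq
  have hq2 : 1 < q := by
    have h0 : q ≠ 0 := by
      rw [hq, Ne, Ideal.absNorm_eq_zero_iff]
      exact v.ne_bot
    have h1 : q ≠ 1 := by
      rw [hq, Ne, Ideal.absNorm_eq_one_iff]
      exact v.isPrime.ne_top
    omega
  set n := q ^ (N + 1) with hn
  have hemb : emb γ ≠ 0 := by
    intro h
    apply hγ
    funext i
    have := congrFun h i
    exact (map_eq_zero (algebraMap K (AlgebraicClosure K))).1 this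
  have hWfin : (W F n γ).Finite :=
    (hFIB K N d F hd hF n (emb γ) hemb).subset fun δ hδ => ⟨hδ.1, hδ.2.1⟩
  let S : Set (AlgebraicClosure K) := ⋃ δ ∈ W F n γ, Set.range δ
  have hS : S.Finite := hWfin.biUnion fun δ _ => Set.finite_range δ
  have : Finite S := hS.to_subtype
  let L₀ := FiniteGaloisIntermediateField.adjoin K S
  have hSL : S ⊆ L₀.toIntermediateField := FiniteGaloisIntermediateField.subset_adjoin K S
  generalize hL : L₀.toIntermediateField = L at hSL
  have : FiniteDimensional K L := by rw [← hL]; infer_instance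
  have : IsGalois K L := by rw [← hL]; infer_instance
  obtain ⟨σ, hσ⟩ := hFROB hFLOC K v A hA L
  refine ⟨n, L, inferInstance, inferInstance, σ, ?_, ?_⟩
  · intro δ hδ i
    exact hSL (Set.mem_biUnion hδ ⟨i, rfl⟩)
  intro y hy hfix
  obtain ⟨c, hc0, hc1, hc2⟩ := hgood
  set y' : Fin (N + 1) → AlgebraicClosure K := fun i => (y i : AlgebraicClosure K) with hy'
  obtain ⟨⟨j1, hj1⟩, hy2, hy3⟩ := hy
  obtain ⟨j0, hj0⟩ := Finite.exists_max fun i => A.valuation (y' i)
  have hvj : A.valuation (y' j0) ≠ 0 := by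
    intro h0
    have h1 := hj0 j1
    rw [h0, hj1, map_one] at h1
    exact absurd h1 (by simp)
  have hyj' : y' j0 ≠ 0 := fun h => hvj (by rw [h, map_zero])
  have hyj : y j0 ≠ 0 := fun h => hyj' (by show ((y j0 : L) : AlgebraicClosure K) = 0; rw [h]; rfl)
  let T : (Fin (N + 1) → L) → (Fin (N + 1) → L) := fun x i => algebraMap K L c * mp F x i
  let z : ℕ → Fin (N + 1) → L := fun t => T^[t] fun i => y i / y j0
  have hz0 : ∀ i, z 0 i = y i / y j0 := fun i => rfl
  have hzs : ∀ t i, z (t + 1) i = algebraMap K L c * mp F (z t) i := by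
    intro t i
    show T^[t + 1] (fun i => y i / y j0) i = _
    rw [Function.iterate_succ_apply']
  have hσz : ∀ t i, σ (z t i) = z t i := by
    intro t
    induction t with
    | zero =>
      intro i
      have h1 : ∀ l, σ (y l) = y l := fun l => congrFun hfix l
      rw [hz0, map_div₀, h1, h1]
    | succ t ih =>
      intro i
      have h2 := mp_map (σ : L →ₐ[K] L) F (z t) i
      have h3 : (fun j => (σ : L →ₐ[K] L) (z t j)) = z t := funext fun j => ih j
      rw [h3] at h2
      rw [hzs, map_mul, σ.commutes]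
      congr 1
  let Z : ℕ → Fin (N + 1) → AlgebraicClosure K := fun t i => (z t i : AlgebraicClosure K)
  have hZ0 : Z 0 = (y' j0)⁻¹ • y' := by
    funext i
    show ((z 0 i : L) : AlgebraicClosure K) = (y' j0)⁻¹ * y' i
    rw [hz0]
    push_cast
    rw [div_eq_inv_mul]
  have hZs : ∀ t, Z (t + 1) = algebraMap K (AlgebraicClosure K) c • mp F (Z t) := by
    intro t
    funext i
    show ((z (t + 1) i : L) : AlgebraicClosure K) = algebraMap K (AlgebraicClosure K) c * mp F (Z t) i
    rw [hzs]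
    have h2 := mp_map L.val F (z t) i
    show L.val (algebraMap K L c * mp F (z t) i) = _
    rw [map_mul, h2, AlgHom.commutes]
    rfl
  have hcalg : algebraMap K (AlgebraicClosure K) c ≠ 0 := by
    rw [Ne, map_eq_zero]; exact hc0
  have hint : ∀ t, (∀ i, Z t i ∈ A) ∧ ∃ i, A.valuation (Z t i) = 1 := by
    intro t
    induction t with
    | zero =>
      have h1 : ∀ i, Z 0 i = (y' j0)⁻¹ * y' i := fun i => by rw [hZ0]; rfl
      constructor
      · intro i
        rw [← A.valuation_le_one_iff, h1, map_mul, map_inv₀, inv_mul_le_iff₀ (zero_lt_iff.2 hvj),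
          mul_one]
        exact hj0 i
      · refine ⟨j0, ?_⟩
        rw [h1, inv_mul_cancel₀ hyj', map_one]
    | succ t ih =>
      obtain ⟨ih1, ih2⟩ := ih
      have h1 : ∀ i, Z (t + 1) i = algebraMap K (AlgebraicClosure K) c * mp F (Z t) i := fun i => by
        rw [hZs]; rfl
      constructor
      · intro i
        rw [h1]
        show algebraMap K (AlgebraicClosure K) c * aeval (Z t) (F i) ∈ A
        rw [aeval_def, eval₂_eq', Finset.mul_sum]
        refine sum_mem fun m _ => ?_
        rw [← mul_assoc, ← map_mul]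
        exact mul_mem (hc1 i m) (prod_mem fun j _ => pow_mem (ih1 j) _)
      · obtain ⟨i, hi⟩ := hc2 (Z t) ih1 ih2
        exact ⟨i, by rw [h1]; exact hi⟩
  have hfrob : ∀ t i, A.valuation (Z t i - Z t i ^ q) < 1 := by
    intro t i
    have h1 := hσ (z t i) ((hint t).1 i)
    rw [hσz] at h1
    exact h1
  -- residue vectors
  let r : ℕ → Fin (N + 1) → IsLocalRing.ResidueField A := fun t i =>
    IsLocalRing.residue A ⟨Z t i, (hint t).1 i⟩
  have hr : ∀ t i, r t i ^ q = r t i := by
    intro t i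
    have h1 : (⟨Z t i, (hint t).1 i⟩ - ⟨Z t i, (hint t).1 i⟩ ^ q : A) ∈ IsLocalRing.maximalIdeal A := by
      rw [A.valuation_lt_one_iff]
      exact hfrob t i
    have h2 := (IsLocalRing.residue_eq_zero_iff _).2 h1
    rw [map_sub, map_pow] at h2
    exact (sub_eq_zero.1 h2).symm
  obtain ⟨i, j, hij, hjn, hrij⟩ := pigeon hq2 r hr
  have hcong : Cong A.valuation (Z i) (Z j) := by
    refine ⟨1, 1, ?_, ?_, ?_⟩
    · intro l
      rw [one_mul]
      exact (A.valuation_le_one_iff _).2 ((hint i).1 l)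
    · obtain ⟨l, hl⟩ := (hint i).2
      exact ⟨l, by rw [one_mul]; exact hl⟩
    · intro l
      rw [one_mul, one_mul]
      have h1 : r i l = r j l := congrFun hrij l
      have h2 : IsLocalRing.residue A (⟨Z i l, (hint i).1 l⟩ - ⟨Z j l, (hint j).1 l⟩) = 0 := by
        rw [map_sub]
        exact sub_eq_zero.2 h1
      rw [IsLocalRing.residue_eq_zero_iff, A.valuation_lt_one_iff] at h2
      exact h2
  have hCit : ∀ m, Cong A.valuation ((mp F)^[m] (Z i)) ((mp F)^[m] (Z j)) := by
    intro m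
    induction m with
    | zero => exact hcong
    | succ m ih =>
      rw [Function.iterate_succ_apply', Function.iterate_succ_apply']
      exact hCMAP K N d F A hFh ⟨c, hc0, hc1, hc2⟩ _ _ ih
  have hPZ : ∀ t, PEq (Z t) ((mp F)^[t] y') := by
    intro t
    induction t with
    | zero =>
      apply peq_symm
      exact ⟨(y' j0)⁻¹, inv_ne_zero hyj', hZ0⟩
    | succ t ih =>
      rw [Function.iterate_succ_apply']
      refine peq_trans (peq_symm ?_) (peq_mp hFh ih)
      exact ⟨_, hcalg, hZs t⟩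
  have hPm : ∀ m t, PEq ((mp F)^[m] (Z t)) ((mp F)^[m + t] y') := by
    intro m t
    rw [Function.iterate_add_apply]
    exact peq_iter hFh (hPZ t) m
  set m := n - j with hm
  have hjn' : j ≤ n := hjn
  have e1 : m + j = n := by omega
  have e2 : (j - i) + (m + i) = n := by omega
  set δ := (mp F)^[m + i] y' with hδ
  have hk : PEq ((mp F)^[j - i] δ) (emb γ) := by
    rw [hδ, ← Function.iterate_add_apply, e2]
    exact hy2
  have hδ0 : δ ≠ 0 := by
    intro h0
    rw [h0, mp_iter_zero hd hFh] at hk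
    obtain ⟨e, _, he⟩ := hk
    rw [smul_zero] at he
    exact hemb he
  have hCδ : Cong A.valuation δ (emb γ) := by
    refine cong_peq (hPm m i) ?_ (hCit m)
    refine peq_trans (hPm m j) ?_
    rw [e1]
    exact hy2
  exact hy3 (m + i) (by omega) (hstar δ (j - i) hδ0 (by omega) hk hCδ)

end Pool.Agent.W2helper49.OP
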